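import Pool.Agent.Work.MP_e214ac_gt.N.Final

/-!
# Universal symmetries are cohomologically trivial on all Nambu-determinant Poisson structures

Let `F` be a universal infinitesimal symmetry of Poisson brackets (a real linear combination of graphs
with at least three vertices).  In every dimension `d = m + 2` there are differential polynomials
`Ξ 0, …, Ξ (d - 1)` with constant coefficients in the symbols `ρ = none`, `a_k = some k` such that for
every open set `U` of `ℝ^d` and all smooth functions `ρ`, `a_0, …, a_{m-1}` on `U` the vector field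
`X = Ξ(ρ, a)` satisfies `F(P) = [[X, P]]` on `U`, where
`P^{ij} = ρ det (e_i, e_j, ∇a_0, …, ∇a_{m-1})`.
-/

open scoped ContDiff

theorem Pool.Agent.Results.MP_e214ac_gt.NambuPoisson.result
    (F : KN.Formula) (hF : KN.IsSymmetry F) (h3 : ∀ cg ∈ F, 3 ≤ cg.2.n) (m : ℕ) :
    ∃ Ξ : Fin (m + 2) → MvPolynomial (Option (Fin m) × (Fin (m + 2) →₀ ℕ)) ℝ,
      ∀ (U : Set (Fin (m + 2) → ℝ)) (ρ : (Fin (m + 2) → ℝ) → ℝ)
        (a : Fin m → (Fin (m + 2) → ℝ) → ℝ),
        IsOpen U → ContDiffOn ℝ ∞ ρ U → (∀ k, ContDiffOn ℝ ∞ (a k) U) →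
        (∀ k, ContDiffOn ℝ ∞ (fun x => MvPolynomial.eval
          (fun v => KN.DK KN.pd v.2 (v.1.elim ρ a) x) (Ξ k)) U) ∧
        ∀ x ∈ U, ∀ i j, F.val KN.pd (KN.nambu KN.pd ρ a) i j x
          = KN.lie KN.pd (fun k x => MvPolynomial.eval
              (fun v => KN.DK KN.pd v.2 (v.1.elim ρ a) x) (Ξ k))
              (KN.nambu KN.pd ρ a) i j x :=
  KN.main F hF h3 m
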