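import Pool.Agent.Work.MP_e214ac_gt.Main

/-!
# Universal symmetries are Poisson-cohomologically trivial on regular Poisson structures

Let `F` be a universal infinitesimal symmetry of `[[P, P]] = 0` (a finite linear combination of
contraction diagrams, every diagram with at least three vertices), `M` a Hausdorff, `σ`-compact
affine manifold and `P` a regular Poisson bivector on `M` (near every point its components are
constant in suitable smooth coordinates, which are not affine in general).  Then there is a global
smooth vector field `X` on `M` with `F(P) = [[P, X]]`.

All definitions are in `Pool/Agent/Work/MP_e214ac_gt/Stmt.lean`.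
-/

set_option autoImplicit false

open E214 in
theorem Pool.Agent.Results.MP_e214ac_gt.RegularTrivial.result {r : ℕ} {M : Type}
    [TopologicalSpace M] [ChartedSpace (Fin r → ℝ) M] [T2Space M] [SigmaCompactSpace M]
    (hM : IsAffineManifold r M) (F : Formula) (hF : IsSymmetry F) (hdeg : ∀ c ∈ F, 3 ≤ c.2.1)
    (P : BivectorField r M) (hP : P.IsPoisson) (hreg : P.IsRegular) :
    ∃ X : VectorField r M, ∀ e ∈ atlas (Fin r → ℝ) M, ∀ i j, ∀ y ∈ e.target,
      F.eval pd (P.comp e) i j y = schoutenVec (P.comp e) (X.comp e) i j y :=
  regular_trivial hM F hF hdeg P hP hreg
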